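import Pool.Agent.H750E.Pham

open Pool.Agent.H750E

namespace Pool.Agent.Results.MP_45f4ba_ag.PhamBrieskorn

/-- Question 2 for Pham–Brieskorn hypersurfaces: `X = {∑ i, x i ^ a i = 0} ⊂ ℂⁿ`, `a i ≥ 1`, has a
non-constant polynomial map `ℂ → X` whose image is not the closure of an orbit of any regular
algebraic `ℂˣ`-action on `X` if and only if `n ≥ 4`, or `n = 3` and either one of the three
exponents is coprime to the two others or the three exponents are even with pairwise coprime
halves. -/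
theorem result (n : ℕ) (a : Fin n → ℕ) (ha : ∀ i, 0 < a i) :
    HasExoticCurve (Hyp (pham a)) ↔ 4 ≤ n ∨ n = 3 ∧
      ((∃ i, ∀ j, j ≠ i → (a i).Coprime (a j)) ∨
        ((∀ i, 2 ∣ a i) ∧ ∀ i j, i ≠ j → (a i / 2).Coprime (a j / 2))) :=
  pham_exotic_iff a ha

end Pool.Agent.Results.MP_45f4ba_ag.PhamBrieskorn
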