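import Pool.Agent.H750E.Rat

open Pool.Agent.H750E

namespace Pool.Agent.Results.MP_45f4ba_ag.RationalCurves

/-- Question 2. Let `p` be a quasihomogeneous polynomial with positive weights `w`. The following
are equivalent: the hypersurface `X = {p = 0} ⊂ ℂⁿ` has a non-constant polynomial map `ℂ → X` whose
image is not the closure of an orbit of any regular algebraic `ℂˣ`-action on `X`; the weighted
projective hypersurface `{p = 0} ⊂ ℙ(w)` contains a rational curve (has a non-constant point over
`ℂ(t)`); some polynomial map `ℂ → X` meets two different non-zero orbits of the action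
`(s • x)_i = s ^ (w i) * x_i` given by the weights. -/
theorem result (n : ℕ) (w : Fin n → ℕ) (hw : ∀ i, 0 < w i) (p : MvPolynomial (Fin n) ℂ) (d : ℕ)
    (hp : p.IsWeightedHomogeneous w d) :
    (HasExoticCurve (Hyp p) ↔ HasRationalCurve w p) ∧
      (HasExoticCurve (Hyp p) ↔ MeetsTwoOrbits w (Hyp p)) :=
  ⟨(exotic_iff w hw p d hp).trans (ratCurve_iff w hw p d hp).symm,
    (exotic_iff w hw p d hp).trans (meets_iff w hw p).symm⟩

end Pool.Agent.Results.MP_45f4ba_ag.RationalCurves
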